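import Mathlib
import Pool.Agent.X68.TF.Chk0
import Pool.Agent.X68.TF.Chk1
import Pool.Agent.X68.TF.Chk2
import Pool.Agent.X68.TF.Chk3
import Pool.Agent.X68.TF.Chk4
import Pool.Agent.X68.TF.Chk5
import Pool.Agent.X68.TF.Chk6
import Pool.Agent.X68.TF.Chk7
import Pool.Agent.X68.TF.Chk8

/-!
# Toads and Frogs: the value of `T^7 □^7 F^6` is neither `1` nor `1*`

Left wins `T^7 □^7 F^6 - 1` moving first, and also moving second.  Hence the value is different
from `1`, and (moving first in the summand `-1*` to `-1`) Left wins `T^7 □^7 F^6 - 1*` moving first,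
so the value is different from `1*`.
-/

set_option autoImplicit false

namespace Pool.Agent.Results.MP_a6e7b1_co.ToadsFrogs

open Pool.Agent.X68.TF
open Pool.Agent.X68.TF.Cell

/-! ## Statement -/

/-- Left's moves: a toad moves one square to the right into an empty square, or jumps to the right
over one frog into the empty square immediately beyond. -/
inductive LMove : List Cell → List Cell → Prop
  | slide (u v : List Cell) : LMove (u ++ T :: E :: v) (u ++ E :: T :: v)
  | jump (u v : List Cell) : LMove (u ++ T :: F :: E :: v) (u ++ E :: F :: T :: v)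

/-- Right's moves: a frog moves one square to the left into an empty square, or jumps to the left
over one toad into the empty square immediately beyond. -/
inductive RMove : List Cell → List Cell → Prop
  | slide (u v : List Cell) : RMove (u ++ E :: F :: v) (u ++ F :: E :: v)
  | jump (u v : List Cell) : RMove (u ++ E :: T :: F :: v) (u ++ F :: T :: E :: v)

/-- the position `T^a □^a F^{a-1}` -/
def start (a : ℕ) : List Cell :=
  List.replicate a T ++ List.replicate a E ++ List.replicate (a - 1) F

/-- Short partizan games `{L_0, … | R_0, …}`. -/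
inductive Sg : Type
  | mk (l r : ℕ) (L : Fin l → Sg) (R : Fin r → Sg) : Sg

/-- `x` is a Left option of `g` -/
def Sg.IsL (x : Sg) : Sg → Prop
  | .mk _ _ L _ => ∃ i, x = L i

/-- `x` is a Right option of `g` -/
def Sg.IsR (x : Sg) : Sg → Prop
  | .mk _ _ _ R => ∃ i, x = R i

/-- the negative of a game -/
def Sg.neg : Sg → Sg
  | .mk l r L R => .mk r l (fun i => (R i).neg) (fun i => (L i).neg)

/-- `0 = { | }` -/
def Sg.zero : Sg := .mk 0 0 Fin.elim0 Fin.elim0

/-- `1 = {0 | }` -/
def Sg.one : Sg := .mk 1 0 (fun _ => .zero) Fin.elim0

/-- `1* = {1 | 1}` -/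
def Sg.oneStar : Sg := .mk 1 1 (fun _ => .one) (fun _ => .one)

/-- Left's moves in the sum of a Toads-and-Frogs position and a short game -/
def SumL (p q : List Cell × Sg) : Prop :=
  (LMove p.1 q.1 ∧ q.2 = p.2) ∨ (q.1 = p.1 ∧ Sg.IsL q.2 p.2)

/-- Right's moves in the sum -/
def SumR (p q : List Cell × Sg) : Prop :=
  (RMove p.1 q.1 ∧ q.2 = p.2) ∨ (q.1 = p.1 ∧ Sg.IsR q.2 p.2)

/-- `WinsFirst A B p`: the player whose moves are given by `A` wins (normal play) from `p` when
moving first, the opponent's moves being given by `B`. -/
inductive WinsFirst {α : Type} (A B : α → α → Prop) : α → Prop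
  | intro (p q : α) (h : A p q) (h' : ∀ r, B q r → WinsFirst A B r) : WinsFirst A B p

/-- The player whose moves are given by `A` wins from `p` when the opponent moves first. -/
def WinsSecond {α : Type} (A B : α → α → Prop) (p : α) : Prop := ∀ r, B p r → WinsFirst A B r

/-- The Toads-and-Frogs position `b` has the same value as the short game `h`: the difference
`b - h` is a win for the second player. -/
def HasValue (b : List Cell) (h : Sg) : Prop :=
  WinsSecond SumL SumR (b, h.neg) ∧ WinsSecond SumR SumL (b, h.neg)

/-! ## Basic facts -/

theorem excl {α : Type} {A B : α → α → Prop} {p : α} (h : WinsFirst A B p) :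
    ¬ WinsSecond B A p := by
  induction h with
  | intro p q h1 h2 ih =>
      intro hs
      cases hs q h1 with
      | intro _ r h3 h4 => exact ih r h3 h4

theorem LMove.cons {x y : List Cell} (c : Cell) (h : LMove x y) : LMove (c :: x) (c :: y) := by
  cases h with
  | slide u v => exact LMove.slide (c :: u) v
  | jump u v => exact LMove.jump (c :: u) v

theorem LMove.length {x y : List Cell} (h : LMove x y) : y.length = x.length := by
  cases h <;> simp

theorem RMove.length {x y : List Cell} (h : RMove x y) : y.length = x.length := by
  cases h <;> simp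

theorem dg_lt (c : Cell) : dg c < 3 := by cases c <;> simp [dg]

theorem code_append (u w : List Cell) : code (u ++ w) = code u + 3 ^ u.length * code w := by
  induction u with
  | nil => simp [code]
  | cons c u ih =>
      rw [List.cons_append, code, code, ih, List.length_cons, Nat.pow_succ]
      ring

theorem code_lt (u : List Cell) : code u < 3 ^ u.length := by
  induction u with
  | nil => simp [code]
  | cons c u ih =>
      have := dg_lt c
      rw [code, List.length_cons, Nat.pow_succ]
      omega

theorem code_div (u w : List Cell) : code (u ++ w) / 3 ^ u.length = code w := by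
  rw [code_append, Nat.add_mul_div_left _ _ (Nat.pow_pos (by omega)),
    Nat.div_eq_of_lt (code_lt u), Nat.zero_add]

/-! ## Termination measure -/

def cntF : List Cell → ℕ
  | [] => 0
  | F :: t => cntF t + 1
  | _ :: t => cntF t

/-- total distance still to be travelled -/
def pot : List Cell → ℕ
  | [] => 0
  | T :: t => pot t + cntF t + t.length
  | _ :: t => pot t + cntF t

theorem cntF_append (u x y : List Cell) (h : cntF x = cntF y) : cntF (u ++ x) = cntF (u ++ y) := by
  induction u with
  | nil => exact h
  | cons c u ih => cases c <;> simp [cntF, ih]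

theorem pot_append (u x y : List Cell) (h : cntF x = cntF y) (hl : x.length = y.length)
    (hp : pot y < pot x) : pot (u ++ y) < pot (u ++ x) := by
  induction u with
  | nil => exact hp
  | cons c u ih =>
      have h1 := cntF_append u x y h
      have h2 : (u ++ x).length = (u ++ y).length := by simp [hl]
      cases c <;> simp only [List.cons_append, pot] <;> omega

theorem LMove.pot {x y : List Cell} (h : LMove x y) : pot y < pot x := by
  cases h with
  | slide u v =>
      apply pot_append
      · simp [cntF]
      · simp
      · simp only [ToadsFrogs.pot, cntF, List.length_cons]; omega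
  | jump u v =>
      apply pot_append
      · simp [cntF]
      · simp
      · simp only [ToadsFrogs.pot, cntF, List.length_cons]; omega

theorem RMove.pot {x y : List Cell} (h : RMove x y) : pot y < pot x := by
  cases h with
  | slide u v =>
      apply pot_append
      · simp [cntF]
      · simp
      · simp only [ToadsFrogs.pot, cntF, List.length_cons]; omega
  | jump u v =>
      apply pot_append
      · simp [cntF]
      · simp
      · simp only [ToadsFrogs.pot, cntF, List.length_cons]; omega

/-! ## Tables -/

/-- membership in a tree -/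
def InT (k : ℕ) : Tr → Prop
  | .lf => False
  | .nd l k' _ r => k = k' ∨ InT k l ∨ InT k r

theorem memT_sound {k : ℕ} {t : Tr} (h : memT k t = true) : InT k t := by
  induction t with
  | lf => simp [memT] at h
  | nd l k' reps r ih1 ih2 =>
      rw [memT] at h
      cases h1 : Nat.beq k k' with
      | true => exact Or.inl (Nat.eq_of_beq_eq_true h1)
      | false =>
          rw [h1] at h
          cases h2 : Nat.ble k k' with
          | true =>
              rw [h2] at h
              exact Or.inr (Or.inl (ih1 h))
          | false =>
              rw [h2] at h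
              exact Or.inr (Or.inr (ih2 h))

/-- the winning set -/
def W (k : ℕ) : Prop :=
  InT k tab0 ∨ InT k tab1 ∨ InT k tab2 ∨ InT k tab3 ∨ InT k tab4 ∨ InT k tab5 ∨ InT k tab6 ∨
    InT k tab7 ∨ InT k tab8

theorem tree_nodes {n : ℕ} {mem : ℕ → Bool} {t : Tr} (h : treeOK n mem t = true) {k : ℕ}
    (hk : InT k t) : ∃ reps, nodeOK n mem k reps = true := by
  induction t with
  | lf => exact hk.elim
  | nd l k' reps r ih1 ih2 =>
      rw [treeOK] at h
      simp only [Bool.and_eq_true] at h
      rcases hk with rfl | hk | hk
      · exact ⟨reps, h.1⟩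
      · exact ih1 h.2.1 hk
      · exact ih2 h.2.2 hk

/-- the closure property of a key -/
def Closed (P : ℕ → Prop) (k : ℕ) : Prop :=
  (∀ b : List Cell, b.length = 20 → code b = k / 2 → ∀ b', RMove b b' → ∃ b'', LMove b' b'' ∧
    P (2 * code b'' + k % 2)) ∧
  (k % 2 = 1 → ∀ b : List Cell, b.length = 20 → code b = k / 2 →
    ∃ b'', LMove b b'' ∧ P (2 * code b''))

theorem repOK_sound {P : ℕ → Prop} {mem : ℕ → Bool} (hm : ∀ k, mem k = true → P k) {m r : ℕ}
    {b : List Cell} (h : repOK mem b.length m (code b) r = true) :
    ∃ b'', LMove b b'' ∧ P (2 * code b'' + m) := by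
  unfold repOK at h
  obtain ⟨j, hj⟩ : ∃ j, r / 2 = j := ⟨_, rfl⟩
  rw [hj] at h
  cases h0 : Nat.beq (r % 2) 0 with
  | true =>
      rw [h0] at h
      simp only [cond_true, Bool.and_eq_true] at h
      obtain ⟨h1, h2, h3⟩ := h
      have h1 := Nat.le_of_ble_eq_true h1
      have h2 := Nat.eq_of_beq_eq_true h2
      obtain ⟨u, w, hu, hx⟩ : ∃ u w : List Cell, u.length = j ∧ b = u ++ w :=
        ⟨b.take j, b.drop j, by rw [List.length_take]; omega, (List.take_append_drop j b).symm⟩
      subst hx
      rw [← hu, code_div] at h2
      rw [List.length_append] at h1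
      match w, h1, h2, h3 with
      | [], h1, _, _ => simp at h1; omega
      | [_], h1, _, _ => simp at h1; omega
      | c1 :: c2 :: v, h1, h2, h3 =>
        rw [code, code] at h2
        have hc1 : c1 = T ∧ c2 = E := by
          cases c1 <;> cases c2 <;> simp [dg] at h2 ⊢ <;> omega
        obtain ⟨rfl, rfl⟩ := hc1
        refine ⟨u ++ E :: T :: v, LMove.slide u v, ?_⟩
        have e : code (u ++ E :: T :: v) = code (u ++ T :: E :: v) + 2 * 3 ^ j := by
          rw [code_append, code_append, hu, code, code, code, code]
          simp only [dg]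
          ring
        rw [e]
        exact hm _ h3
  | false =>
      rw [h0] at h
      simp only [cond_false, Bool.and_eq_true] at h
      obtain ⟨h1, h2, h3⟩ := h
      have h1 := Nat.le_of_ble_eq_true h1
      have h2 := Nat.eq_of_beq_eq_true h2
      obtain ⟨u, w, hu, hx⟩ : ∃ u w : List Cell, u.length = j ∧ b = u ++ w :=
        ⟨b.take j, b.drop j, by rw [List.length_take]; omega, (List.take_append_drop j b).symm⟩
      subst hx
      rw [← hu, code_div] at h2
      rw [List.length_append] at h1
      match w, h1, h2, h3 with
      | [], h1, _, _ => simp at h1; omega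
      | [_], h1, _, _ => simp at h1; omega
      | [_, _], h1, _, _ => simp at h1; omega
      | c1 :: c2 :: c3 :: v, h1, h2, h3 =>
        rw [code, code, code] at h2
        have hc1 : c1 = T ∧ c2 = F ∧ c3 = E := by
          cases c1 <;> cases c2 <;> cases c3 <;> simp [dg] at h2 ⊢ <;> omega
        obtain ⟨rfl, rfl, rfl⟩ := hc1
        refine ⟨u ++ E :: F :: T :: v, LMove.jump u v, ?_⟩
        have e : code (u ++ E :: F :: T :: v) = code (u ++ T :: F :: E :: v) + 8 * 3 ^ j := by
          rw [code_append, code_append, hu, code, code, code, code, code, code]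
          simp only [dg]
          ring
        rw [e]
        exact hm _ h3

theorem loop_sound {mem : ℕ → Bool} {n m C : ℕ} : ∀ (f c p : ℕ) (reps : List ℕ),
    loop mem n m C f c p reps = true → ∀ i < f,
      (c / 3 ^ i % 9 = 6 → ∃ r, repOK mem n m (C - 4 * (p * 3 ^ i)) r = true) ∧
      (c / 3 ^ i % 27 = 21 → ∃ r, repOK mem n m (C - 16 * (p * 3 ^ i)) r = true) := by
  intro f
  induction f with
  | zero => intro c p reps _ i hi; omega
  | succ f ih =>
      intro c p reps h i hi
      rw [loop.eq_def] at h
      simp only at h
      have key : ∀ rs : List ℕ, loop mem n m C f (c / 3) (3 * p) rs = true → 0 < i →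
          (c / 3 ^ i % 9 = 6 → ∃ r, repOK mem n m (C - 4 * (p * 3 ^ i)) r = true) ∧
          (c / 3 ^ i % 27 = 21 → ∃ r, repOK mem n m (C - 16 * (p * 3 ^ i)) r = true) := by
        intro rs hrs hi0
        obtain ⟨i', rfl⟩ : ∃ i', i = i' + 1 := ⟨i - 1, by omega⟩
        have := ih _ _ _ hrs i' (by omega)
        rw [Nat.div_div_eq_div_mul] at this
        rw [show (3 : ℕ) ^ (i' + 1) = 3 * 3 ^ i' by rw [Nat.pow_succ]; ring,
          show p * (3 * 3 ^ i') = 3 * p * 3 ^ i' by ring]
        exact this
      cases h1 : Nat.beq (c % 9) 6 with
      | true =>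
          rw [h1] at h
          simp only [cond_true] at h
          have h1 := Nat.eq_of_beq_eq_true h1
          cases reps with
          | nil => simp at h
          | cons r rs =>
              simp only [Bool.and_eq_true] at h
              rcases Nat.eq_zero_or_pos i with hi0 | hi0
              · subst hi0
                rw [Nat.pow_zero, Nat.div_one, Nat.mul_one]
                exact ⟨fun _ => ⟨r, h.1⟩, fun hc => by omega⟩
              · exact key rs h.2 hi0
      | false =>
          rw [h1] at h
          simp only [cond_false] at h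
          have h1 : c % 9 ≠ 6 := fun hc => by
            rw [hc] at h1; simp at h1
          cases h2 : Nat.beq (c % 27) 21 with
          | true =>
              rw [h2] at h
              simp only [cond_true] at h
              cases reps with
              | nil => simp at h
              | cons r rs =>
                  simp only [Bool.and_eq_true] at h
                  rcases Nat.eq_zero_or_pos i with hi0 | hi0
                  · subst hi0
                    rw [Nat.pow_zero, Nat.div_one, Nat.mul_one]
                    exact ⟨fun hc => absurd hc h1, fun _ => ⟨r, h.1⟩⟩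
                  · exact key rs h.2 hi0
          | false =>
              rw [h2] at h
              simp only [cond_false] at h
              have h2 : c % 27 ≠ 21 := fun hc => by
                rw [hc] at h2; simp at h2
              rcases Nat.eq_zero_or_pos i with hi0 | hi0
              · subst hi0
                rw [Nat.pow_zero, Nat.div_one, Nat.mul_one]
                exact ⟨fun hc => absurd hc h1, fun hc => absurd hc h2⟩
              · exact key reps h hi0

theorem loop_closed {P : ℕ → Prop} {mem : ℕ → Bool} (hm : ∀ k, mem k = true → P k) {m : ℕ}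
    {b b' : List Cell} {reps : List ℕ}
    (h : loop mem b.length m (code b) b.length (code b) 1 reps = true) (hR : RMove b b') :
    ∃ b'', LMove b' b'' ∧ P (2 * code b'' + m) := by
  have hl := hR.length
  cases hR with
  | slide u v =>
      have := (loop_sound _ _ _ _ h u.length (by simp)).1 (by
        rw [code_div, code, code]; simp only [dg]; omega)
      obtain ⟨r, hr⟩ := this
      have e : code (u ++ E :: F :: v) - 4 * (1 * 3 ^ u.length) = code (u ++ F :: E :: v) := by
        have h1 := code_append u (E :: F :: v)
        have h2 := code_append u (F :: E :: v)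
        rw [code, code] at h1 h2
        simp only [dg] at h1 h2
        rw [h1, h2]
        have : 3 ^ u.length * (0 + 3 * (2 + 3 * code v)) =
          3 ^ u.length * (2 + 3 * (0 + 3 * code v)) + 4 * 3 ^ u.length := by ring
        omega
      rw [e, ← hl] at hr
      exact repOK_sound hm hr
  | jump u v =>
      have := (loop_sound _ _ _ _ h u.length (by simp)).2 (by
        rw [code_div, code, code, code]; simp only [dg]; omega)
      obtain ⟨r, hr⟩ := this
      have e : code (u ++ E :: T :: F :: v) - 16 * (1 * 3 ^ u.length) =
          code (u ++ F :: T :: E :: v) := by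
        have h1 := code_append u (E :: T :: F :: v)
        have h2 := code_append u (F :: T :: E :: v)
        rw [code, code, code] at h1 h2
        simp only [dg] at h1 h2
        rw [h1, h2]
        have : 3 ^ u.length * (0 + 3 * (1 + 3 * (2 + 3 * code v))) =
          3 ^ u.length * (2 + 3 * (1 + 3 * (0 + 3 * code v))) + 16 * 3 ^ u.length := by ring
        omega
      rw [e, ← hl] at hr
      exact repOK_sound hm hr

theorem nodeOK_sound {P : ℕ → Prop} {mem : ℕ → Bool} (hm : ∀ k, mem k = true → P k) {k : ℕ}
    {reps : List ℕ} (h : nodeOK 20 mem k reps = true) : Closed P k := by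
  unfold nodeOK at h
  cases h0 : Nat.beq (k % 2) 0 with
  | true =>
      rw [h0] at h
      simp only [cond_true] at h
      have h0 := Nat.eq_of_beq_eq_true h0
      refine ⟨?_, fun hc => by omega⟩
      intro b hb hc b' hR
      rw [h0]
      rw [← hb, ← hc] at h
      exact loop_closed hm h hR
  | false =>
      rw [h0] at h
      simp only [cond_false] at h
      have h0 : k % 2 ≠ 0 := fun hc => by
        rw [hc] at h0; simp at h0
      have h1 : k % 2 = 1 := by omega
      cases reps with
      | nil => simp at h
      | cons r rs =>
          simp only [Bool.and_eq_true] at h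
          refine ⟨?_, ?_⟩
          · intro b hb hc b' hR
            rw [h1]
            have h2 := h.2
            rw [← hb, ← hc] at h2
            exact loop_closed hm h2 hR
          · intro _ b hb hc
            have h2 := h.1
            rw [← hb, ← hc] at h2
            exact repOK_sound hm h2

theorem tree_closed {mem : ℕ → Bool} (hm : ∀ k, mem k = true → W k) {t : Tr}
    (h : treeOK 20 mem t = true) {k : ℕ} (hk : InT k t) : Closed W k := by
  obtain ⟨reps, hr⟩ := tree_nodes h hk
  exact nodeOK_sound hm hr

theorem W_closed (k : ℕ) (h : W k) : Closed W k := by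
  rcases h with h | h | h | h | h | h | h | h | h
  · refine tree_closed ?_ chk0 h
    intro k hk
    exact Or.inl (memT_sound hk)
  · refine tree_closed ?_ chk1 h
    intro k hk
    rcases Bool.or_eq_true _ _ |>.mp hk with hk | hk
    · exact Or.inr (Or.inl (memT_sound hk))
    · exact Or.inl (memT_sound hk)
  · refine tree_closed ?_ chk2 h
    intro k hk
    rcases Bool.or_eq_true _ _ |>.mp hk with hk | hk
    · exact Or.inr (Or.inr (Or.inl (memT_sound hk)))
    · exact Or.inr (Or.inl (memT_sound hk))
  · refine tree_closed ?_ chk3 h
    intro k hk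
    rcases Bool.or_eq_true _ _ |>.mp hk with hk | hk
    · exact Or.inr (Or.inr (Or.inr (Or.inl (memT_sound hk))))
    · exact Or.inr (Or.inr (Or.inl (memT_sound hk)))
  · refine tree_closed ?_ chk4 h
    intro k hk
    rcases Bool.or_eq_true _ _ |>.mp hk with hk | hk
    · exact Or.inr (Or.inr (Or.inr (Or.inr (Or.inl (memT_sound hk)))))
    · exact Or.inr (Or.inr (Or.inr (Or.inl (memT_sound hk))))
  · refine tree_closed ?_ chk5 h
    intro k hk
    rcases Bool.or_eq_true _ _ |>.mp hk with hk | hk
    · exact Or.inr (Or.inr (Or.inr (Or.inr (Or.inr (Or.inl (memT_sound hk))))))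
    · exact Or.inr (Or.inr (Or.inr (Or.inr (Or.inl (memT_sound hk)))))
  · refine tree_closed ?_ chk6 h
    intro k hk
    rcases Bool.or_eq_true _ _ |>.mp hk with hk | hk
    · exact Or.inr (Or.inr (Or.inr (Or.inr (Or.inr (Or.inr (Or.inl (memT_sound hk)))))))
    · exact Or.inr (Or.inr (Or.inr (Or.inr (Or.inr (Or.inl (memT_sound hk))))))
  · refine tree_closed ?_ chk7 h
    intro k hk
    rcases Bool.or_eq_true _ _ |>.mp hk with hk | hk
    · exact Or.inr (Or.inr (Or.inr (Or.inr (Or.inr (Or.inr (Or.inr (Or.inl (memT_sound hk))))))))
    · exact Or.inr (Or.inr (Or.inr (Or.inr (Or.inr (Or.inr (Or.inl (memT_sound hk)))))))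
  · refine tree_closed ?_ chk8 h
    intro k hk
    rcases Bool.or_eq_true _ _ |>.mp hk with hk | hk
    · exact Or.inr (Or.inr (Or.inr (Or.inr (Or.inr (Or.inr (Or.inr (Or.inr (memT_sound hk))))))))
    · exact Or.inr (Or.inr (Or.inr (Or.inr (Or.inr (Or.inr (Or.inr (Or.inl (memT_sound hk))))))))

/-! ## Left wins moving second on the winning set -/

/-- the short games `0 = -0` and `-1` -/
def ext (m : ℕ) : Sg := if m = 0 then Sg.zero else Sg.neg Sg.one

theorem isR_zero {x : Sg} (h : Sg.IsR x Sg.zero) : False := by
  obtain ⟨i, _⟩ := h
  exact i.elim0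

theorem isR_neg_one {x : Sg} (h : Sg.IsR x (Sg.neg Sg.one)) : x = Sg.zero := by
  obtain ⟨_, h⟩ := h
  rw [h]
  show Sg.neg Sg.zero = Sg.zero
  unfold Sg.zero
  rw [Sg.neg]
  congr 1
  · funext i; exact i.elim0
  · funext i; exact i.elim0

theorem main (N : ℕ) : ∀ b : List Cell, b.length = 20 → pot b ≤ N →
    ∀ m, m < 2 → W (2 * code b + m) → WinsSecond SumL SumR (b, ext m) := by
  induction N using Nat.strong_induction_on with
  | _ N ih =>
      intro b hb hN m hm hW
      obtain ⟨hc1, hc2⟩ := W_closed _ hW
      have hdiv : (2 * code b + m) / 2 = code b := by omega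
      have hmod : (2 * code b + m) % 2 = m := by omega
      rw [hmod] at hc1 hc2
      rw [hdiv] at hc1 hc2
      intro r hr
      obtain ⟨b', g'⟩ := r
      rcases hr with ⟨h1, h2⟩ | ⟨h1, h2⟩
      · -- Right moves a frog
        simp only at h1 h2
        obtain ⟨b'', h3, h4⟩ := hc1 b hb rfl b' h1
        have l1 := h1.length
        have l2 := h3.length
        have p1 := h1.pot
        have p2 := h3.pot
        refine WinsFirst.intro _ (b'', g') (Or.inl ⟨h3, rfl⟩) ?_
        rw [h2]
        exact ih (pot b'') (by omega) b'' (by omega) le_rfl m hm h4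
      · -- Right moves in the summand `-1`
        simp only at h1 h2
        subst h1
        have hm' : m = 0 ∨ m = 1 := by omega
        rcases hm' with rfl | rfl
        · exact (isR_zero h2).elim
        · have hg : g' = Sg.zero := isR_neg_one h2
          obtain ⟨b'', h3, h4⟩ := hc2 rfl b' hb rfl
          have l2 := h3.length
          have p2 := h3.pot
          refine WinsFirst.intro _ (b'', g') (Or.inl ⟨h3, rfl⟩) ?_
          rw [hg]
          exact ih (pot b'') (by omega) b'' (by omega) le_rfl 0 (by omega) h4

theorem W_start : W (2 * code (start 7) + 1) := by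
  right; right; right; right; right; right; right; right
  apply memT_sound
  decide +kernel

/-- the position after the first move -/
def first7 : List Cell := [T,T,T,T,T,T,E,T,E,E,E,E,E,E,F,F,F,F,F,F]

theorem W_first : W (2 * code first7 + 1) := by
  right; right; right; right; right; right; right; right
  apply memT_sound
  decide +kernel

theorem start_first : LMove (start 7) first7 :=
  LMove.slide [T,T,T,T,T,T] [E,E,E,E,E,E,F,F,F,F,F,F]

/-- `T^7 □^7 F^6 - 1`: Left wins moving second. -/
theorem second : WinsSecond SumL SumR (start 7, Sg.neg Sg.one) :=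
  main _ (start 7) rfl le_rfl 1 (by omega) W_start

/-- `T^7 □^7 F^6 - 1`: Left wins moving first. -/
theorem first : WinsFirst SumL SumR (start 7, Sg.neg Sg.one) :=
  WinsFirst.intro _ (first7, Sg.neg Sg.one) (Or.inl ⟨start_first, rfl⟩)
    (main _ first7 rfl le_rfl 1 (by omega) W_first)

/-- `T^7 □^7 F^6 - 1*`: Left wins moving first. -/
theorem firstStar : WinsFirst SumL SumR (start 7, Sg.neg Sg.oneStar) :=
  WinsFirst.intro _ (start 7, Sg.neg Sg.one) (Or.inr ⟨rfl, ⟨0, rfl⟩⟩) second

/-- **Main result.**  The value of the Toads-and-Frogs position `T^7 □^7 F^6` is neither `1` nor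
`1*`; so it is not true that `T^a □^a F^{a-1}` has value `1` or `1*` for every `a ≥ 1`.  More
precisely, Left wins the difference `T^7 □^7 F^6 - 1` both moving first and moving second, i.e.
the value is strictly greater than `1`. -/
theorem result :
    (¬ HasValue (start 7) Sg.one ∧ ¬ HasValue (start 7) Sg.oneStar) ∧
    (WinsFirst SumL SumR (start 7, Sg.neg Sg.one) ∧
      WinsSecond SumL SumR (start 7, Sg.neg Sg.one)) ∧
    ¬ (∀ a ≥ 1, HasValue (start a) Sg.one ∨ HasValue (start a) Sg.oneStar) := by
  have h1 : ¬ HasValue (start 7) Sg.one := fun h => excl first h.2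
  have h2 : ¬ HasValue (start 7) Sg.oneStar := fun h => excl firstStar h.2
  refine ⟨⟨h1, h2⟩, ⟨first, second⟩, ?_⟩
  intro h
  rcases h 7 (by omega) with h | h
  · exact h1 h
  · exact h2 h

end Pool.Agent.Results.MP_a6e7b1_co.ToadsFrogs
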